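import Mathlib

set_option autoImplicit false

/-!
# Minimal 2-edge-strongly biconnected digraphs on `n` vertices have at most `7 n - 8` arcs

Arcs are a finite set of ordered pairs of vertices without loops.  The proof finds inside every
2-edge-strongly biconnected digraph a spanning one with at most `7 n - 8` arcs:
`4 (n - 1)` arcs for 2-arc-connectivity, `n - 2` more for biconnectivity and `2 (n - 1)` more for
biconnectivity after the deletion of an arc.
-/

namespace Pool.Agent.Results.MP_93593e_co.SevenN

/-- The underlying simple graph of the digraph with arc set `E`. -/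
def underlying {V : Type} (E : Finset (V × V)) : SimpleGraph V :=
  SimpleGraph.fromRel fun u w => (u, w) ∈ E

/-- A graph is biconnected if it is connected and deleting any vertex leaves it connected. -/
def Biconnected {V : Type} (G : SimpleGraph V) : Prop :=
  G.Connected ∧ ∀ x : V, (G.induce {x}ᶜ).Connected

/-- The digraph with arc set `E` has no loops, is strongly connected, and its underlying graph is
biconnected. -/
def StronglyBiconnected {V : Type} (E : Finset (V × V)) : Prop :=
  (∀ v, (v, v) ∉ E) ∧ (∀ u v, Relation.ReflTransGen (fun a b => (a, b) ∈ E) u v) ∧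
    Biconnected (underlying E)

/-- Strongly biconnected on at least three vertices, also after the deletion of any arc. -/
def TwoEdgeSB {V : Type} [Fintype V] [DecidableEq V] (E : Finset (V × V)) : Prop :=
  StronglyBiconnected E ∧ 3 ≤ Fintype.card V ∧ ∀ e ∈ E, StronglyBiconnected (E.erase e)

/-- 2-edge-strongly biconnected, and no arc can be removed. -/
def MinimalTwoEdgeSB {V : Type} [Fintype V] [DecidableEq V] (E : Finset (V × V)) : Prop :=
  TwoEdgeSB E ∧ ∀ e ∈ E, ¬ TwoEdgeSB (E.erase e)

/-! ### Reachability and connectivity -/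

/-- Directed reachability inside an arc set. -/
abbrev Reach {V : Type} (F : Finset (V × V)) : V → V → Prop :=
  Relation.ReflTransGen fun a b => (a, b) ∈ F

/-- One step in the underlying graph avoiding `z`. -/
def Step {V : Type} (F : Finset (V × V)) (z a b : V) : Prop :=
  a ≠ z ∧ b ≠ z ∧ ((a, b) ∈ F ∨ (b, a) ∈ F)

/-- Connected in the underlying graph minus `z`. -/
abbrev Conn {V : Type} (F : Finset (V × V)) (z : V) : V → V → Prop :=
  Relation.ReflTransGen (Step F z)

theorem Conn.symm {V : Type} {F : Finset (V × V)} {z a b : V} (h : Conn F z a b) :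
    Conn F z b a := by
  induction h with
  | refl => exact Relation.ReflTransGen.refl
  | tail _ h ih => exact Relation.ReflTransGen.head ⟨h.2.1, h.1, h.2.2.symm⟩ ih

theorem Conn.mono {V : Type} {F F' : Finset (V × V)} (hF : F ⊆ F') {z a b : V}
    (h : Conn F z a b) : Conn F' z a b := by
  induction h with
  | refl => exact Relation.ReflTransGen.refl
  | tail _ h ih => exact ih.tail ⟨h.1, h.2.1, h.2.2.imp (@hF _) (@hF _)⟩

theorem Reach.mono {V : Type} {F F' : Finset (V × V)} (hF : F ⊆ F') {a b : V}
    (h : Reach F a b) : Reach F' a b := by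
  induction h with
  | refl => exact Relation.ReflTransGen.refl
  | tail _ h ih => exact ih.tail (hF h)

variable {V : Type} [DecidableEq V]

/-! ### 2-arc-connectivity with `4 (n - 1)` arcs -/

/-- Arcs entering `X`. -/
def ent (E : Finset (V × V)) (X : Finset V) : Finset (V × V) :=
  E.filter fun e => e.1 ∉ X ∧ e.2 ∈ X

theorem mem_ent {E : Finset (V × V)} {X : Finset V} {e : V × V} :
    e ∈ ent E X ↔ e ∈ E ∧ e.1 ∉ X ∧ e.2 ∈ X := by
  simp [ent]

theorem ent_mono {E F : Finset (V × V)} (h : E ⊆ F) (X : Finset V) : ent E X ⊆ ent F X := by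
  intro e he
  rw [mem_ent] at he ⊢
  exact ⟨h he.1, he.2⟩

theorem submod (E : Finset (V × V)) (X Y : Finset V) :
    (ent E (X ∩ Y)).card + (ent E (X ∪ Y)).card ≤ (ent E X).card + (ent E Y).card := by
  rw [← Finset.card_union_add_card_inter (ent E (X ∩ Y)),
    ← Finset.card_union_add_card_inter (ent E X)]
  apply add_le_add
  · apply Finset.card_le_card
    intro e he
    simp only [Finset.mem_union, mem_ent, Finset.mem_inter] at he ⊢
    tauto
  · apply Finset.card_le_card
    intro e he
    simp only [Finset.mem_union, mem_ent, Finset.mem_inter] at he ⊢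
    tauto

/-- Rooted 2-arc-connectivity. -/
def Rooted (E : Finset (V × V)) (r : V) : Prop :=
  ∀ X : Finset V, X.Nonempty → r ∉ X → 2 ≤ (ent E X).card

theorem rooted_sparse [Fintype V] {E : Finset (V × V)} {r : V} (hE : Rooted E r) :
    ∃ E' ⊆ E, Rooted E' r ∧ E'.card ≤ 2 * (Fintype.card V - 1) := by
  classical
  obtain ⟨E', hE', hmin⟩ := Finset.exists_min_image (E.powerset.filter fun E' => Rooted E' r)
    Finset.card ⟨E, by simp [hE]⟩
  rw [Finset.mem_filter, Finset.mem_powerset] at hE'
  obtain ⟨hsub, hR⟩ := hE'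
  refine ⟨E', hsub, hR, ?_⟩
  have htight : ∀ e ∈ E', ∃ X : Finset V, r ∉ X ∧ e.1 ∉ X ∧ e.2 ∈ X ∧ (ent E' X).card = 2 := by
    intro e he
    have hnot : ¬ Rooted (E'.erase e) r := by
      intro h
      have := hmin (E'.erase e) (by
        rw [Finset.mem_filter, Finset.mem_powerset]
        exact ⟨(Finset.erase_subset _ _).trans hsub, h⟩)
      have h2 := Finset.card_erase_lt_of_mem he
      omega
    unfold Rooted at hnot
    push Not at hnot
    obtain ⟨X, hX, hr, hlt⟩ := hnot
    have h2 := hR X hX hr
    have h3 : ent (E'.erase e) X = (ent E' X).erase e := by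
      ext f
      simp only [mem_ent, Finset.mem_erase]
      tauto
    have hmem : e ∈ ent E' X := by
      by_contra hne
      rw [h3, Finset.erase_eq_of_notMem hne] at hlt
      omega
    rw [h3, Finset.card_erase_of_mem hmem] at hlt
    rw [mem_ent] at hmem
    exact ⟨X, hr, hmem.2.1, hmem.2.2, by omega⟩
  have hin : ∀ v, (E'.filter fun e => e.2 = v).card ≤ if v = r then 0 else 2 := by
    intro v
    by_cases hv : v = r
    · rw [if_pos hv, Nat.le_zero, Finset.card_eq_zero, Finset.filter_eq_empty_iff]
      intro e he hev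
      obtain ⟨X, h1, _, h3, _⟩ := htight e he
      exact h1 (hv ▸ hev ▸ h3)
    · rw [if_neg hv]
      by_cases hne : (E'.filter fun e => e.2 = v).Nonempty
      · obtain ⟨e, he⟩ := hne
        rw [Finset.mem_filter] at he
        obtain ⟨X₀, h1, _, h3, h4⟩ := htight e he.1
        rw [he.2] at h3
        obtain ⟨X, hX, hXmin⟩ := Finset.exists_min_image
          ((Finset.univ : Finset (Finset V)).filter fun X => r ∉ X ∧ v ∈ X ∧
            (ent E' X).card = 2) Finset.card ⟨X₀, by simp [h1, h3, h4]⟩
        simp only [Finset.mem_filter, Finset.mem_univ, true_and] at hX hXmin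
        obtain ⟨hrX, hvX, hcX⟩ := hX
        rw [← hcX]
        apply Finset.card_le_card
        intro f hf
        rw [Finset.mem_filter] at hf
        obtain ⟨Y, hrY, hfY1, hfY2, hcY⟩ := htight f hf.1
        rw [hf.2] at hfY2
        have hI : (ent E' (X ∩ Y)).card = 2 := by
          have s := submod E' X Y
          have a1 := hR (X ∩ Y) ⟨v, by simp [hvX, hfY2]⟩ (by simp [hrX])
          have a2 := hR (X ∪ Y) ⟨v, by simp [hvX]⟩ (by simp [hrX, hrY])
          omega
        have hle := hXmin (X ∩ Y) ⟨by simp [hrX], by simp [hvX, hfY2], hI⟩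
        have hXY : X ∩ Y = X := Finset.eq_of_subset_of_card_le Finset.inter_subset_left hle
        have hXY' : X ⊆ Y := Finset.inter_eq_left.1 hXY
        rw [mem_ent]
        exact ⟨hf.1, fun h => hfY1 (hXY' h), hf.2 ▸ hvX⟩
      · rw [Finset.not_nonempty_iff_eq_empty] at hne
        rw [hne]
        simp
  calc E'.card = ∑ v : V, (E'.filter fun e => e.2 = v).card :=
        Finset.card_eq_sum_card_fiberwise fun _ _ => Finset.mem_univ _
    _ ≤ ∑ v : V, (if v = r then 0 else 2) := Finset.sum_le_sum fun v _ => hin v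
    _ = 2 * (Fintype.card V - 1) := by
        rw [Finset.sum_ite, Finset.sum_const_zero, zero_add, Finset.sum_const, smul_eq_mul,
          mul_comm]
        congr 1
        rw [Finset.filter_ne' , Finset.card_erase_of_mem (Finset.mem_univ _), Finset.card_univ]

theorem arc_sparse [Fintype V] [Nonempty V] {E : Finset (V × V)}
    (hE : ∀ X : Finset V, X.Nonempty → X ≠ Finset.univ → 2 ≤ (ent E X).card) :
    ∃ E' ⊆ E, (∀ X : Finset V, X.Nonempty → X ≠ Finset.univ → 2 ≤ (ent E' X).card) ∧
      E'.card ≤ 4 * (Fintype.card V - 1) := by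
  obtain ⟨r⟩ := ‹Nonempty V›
  have hswap : ∀ (F : Finset (V × V)) (X : Finset V),
      (ent (F.image Prod.swap) X) = (F.filter fun e => e.2 ∉ X ∧ e.1 ∈ X).image Prod.swap := by
    intro F X
    ext ⟨a, b⟩
    simp only [mem_ent, Finset.mem_image, Finset.mem_filter, Prod.exists, Prod.swap_prod_mk,
      Prod.mk.injEq]
    constructor
    · rintro ⟨⟨c, d, h, rfl, rfl⟩, h2⟩
      exact ⟨c, d, ⟨h, h2⟩, rfl, rfl⟩
    · rintro ⟨c, d, ⟨h, h2⟩, rfl, rfl⟩
      exact ⟨⟨c, d, h, rfl, rfl⟩, h2⟩
  have hcompl : ∀ (F : Finset (V × V)) (X : Finset V),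
      (F.filter fun e => e.2 ∉ X ∧ e.1 ∈ X) = ent F Xᶜ := by
    intro F X
    ext e
    simp only [mem_ent, Finset.mem_filter, Finset.mem_compl, not_not]
    tauto
  have hcard : ∀ (F : Finset (V × V)) (X : Finset V),
      (ent (F.image Prod.swap) X).card = (ent F Xᶜ).card := by
    intro F X
    rw [hswap, hcompl, Finset.card_image_of_injective _ Prod.swap_injective]
  obtain ⟨E₁, h1, h2, h3⟩ := rooted_sparse (E := E) (r := r) fun X hX hr =>
    hE X hX fun h => hr (h ▸ Finset.mem_univ _)
  obtain ⟨E₂, h4, h5, h6⟩ := rooted_sparse (E := E.image Prod.swap) (r := r) (by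
    intro X hX hr
    rw [hcard]
    refine hE _ ⟨r, by simpa using hr⟩ ?_
    intro h
    obtain ⟨x, hx⟩ := hX
    have : x ∈ Xᶜ := h ▸ Finset.mem_univ x
    rw [Finset.mem_compl] at this
    exact this hx)
  refine ⟨E₁ ∪ E₂.image Prod.swap, ?_, ?_, ?_⟩
  · apply Finset.union_subset h1
    intro e he
    obtain ⟨f, hf, rfl⟩ := Finset.mem_image.1 he
    obtain ⟨g, hg, rfl⟩ := Finset.mem_image.1 (h4 hf)
    simpa using hg
  · intro X hX hXu
    by_cases hr : r ∈ X
    · have hne : (Xᶜ).Nonempty := by
        rw [Finset.nonempty_iff_ne_empty]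
        intro h
        rw [Finset.compl_eq_empty_iff] at h
        exact hXu h
      have h7 := h5 Xᶜ hne (by simpa using hr)
      have h8 := hcard (E₂.image Prod.swap) Xᶜ
      rw [Finset.image_image, Prod.swap_swap_eq, Finset.image_id, compl_compl] at h8
      rw [h8] at h7
      exact h7.trans (Finset.card_le_card (ent_mono Finset.subset_union_right X))
    · exact (h2 X hX hr).trans (Finset.card_le_card (ent_mono Finset.subset_union_left X))
  · refine (Finset.card_union_le _ _).trans ?_
    have := Finset.card_image_le (s := E₂) (f := Prod.swap)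
    omega

/-! ### Paths -/

/-- `Pth R a b W P`: a path from `a` to `b` with vertex set `W` and arc set `P`. -/
inductive Pth (R : V → V → Prop) : V → V → Finset V → Finset (V × V) → Prop
  | single (a : V) : Pth R a a {a} ∅
  | cons (a c b : V) (W : Finset V) (P : Finset (V × V)) : R a c → a ∉ W → Pth R c b W P →
      Pth R a b (insert a W) (insert (a, c) P)

namespace Pth

variable {R : V → V → Prop} {a b : V} {W : Finset V} {P : Finset (V × V)}

theorem left_mem (h : Pth R a b W P) : a ∈ W := by
  cases h with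
  | single => simp
  | cons => simp

theorem right_mem (h : Pth R a b W P) : b ∈ W := by
  induction h with
  | single => simp
  | cons a c b W P _ _ _ ih => exact Finset.mem_insert_of_mem ih

theorem card (h : Pth R a b W P) : P.card + 1 ≤ W.card := by
  induction h with
  | single => simp
  | cons a c b W P _ h2 _ ih =>
    rw [Finset.card_insert_of_notMem h2]
    have := Finset.card_insert_le (a, c) P
    omega

theorem sub {E : Finset (V × V)} (hR : ∀ a b, R a b → (a, b) ∈ E) (h : Pth R a b W P) :
    P ⊆ E := by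
  induction h with
  | single => simp
  | cons a c b W P h1 _ _ ih => exact Finset.insert_subset (hR _ _ h1) ih

theorem conn_right (h : Pth R a b W P) : ∀ z, z ∉ W → ∀ w ∈ W, Conn P z w b := by
  induction h with
  | single a =>
    intro z _ w hw
    rw [Finset.mem_singleton] at hw
    subst hw
    exact Relation.ReflTransGen.refl
  | cons a c b W P h1 h2 h3 ih =>
    intro z hz w hw
    rw [Finset.mem_insert, not_or] at hz
    have hsub : P ⊆ insert (a, c) P := Finset.subset_insert _ _
    rcases Finset.mem_insert.1 hw with rfl | hw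
    · refine Relation.ReflTransGen.head ⟨fun h => hz.1 h.symm, fun h => hz.2 (h ▸ h3.left_mem),
        Or.inl (Finset.mem_insert_self _ _)⟩ ((ih z hz.2 _ h3.left_mem).mono hsub)
    · exact (ih z hz.2 w hw).mono hsub

theorem conn_or (h : Pth R a b W P) : ∀ z, ∀ w ∈ W, w ≠ z →
    (a ≠ z ∧ Conn P z w a) ∨ (b ≠ z ∧ Conn P z w b) := by
  induction h with
  | single a =>
    intro z w hw hwz
    rw [Finset.mem_singleton] at hw
    subst hw
    exact Or.inl ⟨hwz, Relation.ReflTransGen.refl⟩
  | cons a c b W P h1 h2 h3 ih =>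
    intro z w hw hwz
    have hsub : P ⊆ insert (a, c) P := Finset.subset_insert _ _
    rcases Finset.mem_insert.1 hw with rfl | hw
    · exact Or.inl ⟨hwz, Relation.ReflTransGen.refl⟩
    · rcases ih z w hw hwz with ⟨h4, h5⟩ | ⟨h4, h5⟩
      · by_cases haz : a = z
        · subst haz
          refine Or.inr ⟨fun h => h2 (h ▸ h3.right_mem), (h3.conn_right _ h2 w hw).mono hsub⟩
        · exact Or.inl ⟨haz, (h5.mono hsub).tail
            ⟨h4, haz, Or.inr (Finset.mem_insert_self _ _)⟩⟩
      · exact Or.inr ⟨h4, h5.mono hsub⟩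

theorem subpath (h : Pth R a b W P) : ∀ w ∈ W, ∃ W' P', Pth R w b W' P' := by
  induction h with
  | single a =>
    intro w hw
    rw [Finset.mem_singleton] at hw
    subst hw
    exact ⟨_, _, Pth.single _⟩
  | cons a c b W P h1 h2 h3 ih =>
    intro w hw
    rcases Finset.mem_insert.1 hw with rfl | hw
    · exact ⟨_, _, Pth.cons _ _ _ _ _ h1 h2 h3⟩
    · exact ih w hw

theorem avoid {B : Finset V} (hR : ∀ a b, R a b → a ∉ B) (h : Pth R a b W P)
    (hb : b ∉ B) : ∀ w ∈ W, w ∉ B := by
  induction h with
  | single a =>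
    intro w hw
    rw [Finset.mem_singleton] at hw
    subst hw
    exact hb
  | cons a c b W P h1 h2 h3 ih =>
    intro w hw
    rcases Finset.mem_insert.1 hw with rfl | hw
    · exact hR _ _ h1
    · exact ih hb w hw

theorem exists_of {R : V → V → Prop} {a b : V} (h : Relation.ReflTransGen R a b) :
    ∃ W P, Pth R a b W P := by
  induction h using Relation.ReflTransGen.head_induction_on with
  | refl => exact ⟨_, _, Pth.single _⟩
  | @head a c hac _ ih =>
    obtain ⟨W, P, h⟩ := ih
    by_cases ha : a ∈ W
    · exact h.subpath a ha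
    · exact ⟨_, _, Pth.cons _ _ _ _ _ hac ha h⟩

end Pth

/-- Adding an open ear preserves connectivity after deletion of a vertex. -/
theorem conn_ear {F F' P : Finset (V × V)} {B W : Finset V} {x y a b : V} {R : V → V → Prop}
    (hconn : ∀ z, ∀ u ∈ B, ∀ v ∈ B, u ≠ z → v ≠ z → Conn F z u v) (hx : x ∈ B) (hy : y ∈ B)
    (hxy : x ≠ y) (hp : Pth R a b W P) (hW : ∀ w ∈ W, w ∉ B) (s1 : F ⊆ F') (s2 : P ⊆ F')
    (s3 : (x, a) ∈ F' ∨ (a, x) ∈ F') (s4 : (b, y) ∈ F' ∨ (y, b) ∈ F') :
    ∀ z, ∀ u ∈ B ∪ W, ∀ v ∈ B ∪ W, u ≠ z → v ≠ z → Conn F' z u v := by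
  have haW := hp.left_mem
  have hbW := hp.right_mem
  intro z
  obtain ⟨c, hc, hcz⟩ : ∃ c ∈ B, c ≠ z := by
    by_cases h : x = z
    · exact ⟨y, hy, fun h' => hxy (h.trans h'.symm)⟩
    · exact ⟨x, hx, h⟩
  have key : ∀ u ∈ B ∪ W, u ≠ z → Conn F' z u c := by
    intro u hu huz
    rcases Finset.mem_union.1 hu with hu | hu
    · exact (hconn z u hu c hc huz hcz).mono s1
    · by_cases hzx : x = z
      · have hzW : z ∉ W := fun h => hW z h (hzx ▸ hx)
        have hyz : y ≠ z := fun h2 => hxy (hzx.trans h2.symm)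
        have h1 := (hp.conn_right z hzW u hu).mono s2
        refine (h1.tail ⟨fun h => hzW (h ▸ hbW), hyz, s4⟩).trans ?_
        exact (hconn z y hy c hc hyz hcz).mono s1
      · by_cases hzy : y = z
        · have hzW : z ∉ W := fun h => hW z h (hzy ▸ hy)
          have h1 := (hp.conn_right z hzW u hu).mono s2
          have h2 := ((hp.conn_right z hzW a haW).mono s2).symm
          refine ((h1.trans h2).tail ⟨fun h => hzW (h ▸ haW), hzx, s3.symm⟩).trans ?_
          exact (hconn z x hx c hc hzx hcz).mono s1
        · rcases hp.conn_or z u hu huz with ⟨h1, h2⟩ | ⟨h1, h2⟩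
          · refine ((h2.mono s2).tail ⟨h1, hzx, s3.symm⟩).trans ?_
            exact (hconn z x hx c hc hzx hcz).mono s1
          · refine ((h2.mono s2).tail ⟨h1, hzy, s4⟩).trans ?_
            exact (hconn z y hy c hc hzy hcz).mono s1
  intro u hu v hv huz hvz
  exact (key u hu huz).trans (key v hv hvz).symm

/-! ### Biconnectivity with few more arcs -/

/-- First entry into `B`. -/
theorem first_entry {S : Finset (V × V)} {B : Finset V} {x u y : V} (h : Conn S x u y)
    (hy : y ∈ B) (hu : u ∉ B) : ∃ y' ∈ B, y' ≠ x ∧ ∃ b, b ∉ B ∧ ((b, y') ∈ S ∨ (y', b) ∈ S) ∧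
      Relation.ReflTransGen (fun p q => ((p, q) ∈ S ∨ (q, p) ∈ S) ∧ p ∉ B ∧ q ∉ B) u b := by
  induction h using Relation.ReflTransGen.head_induction_on with
  | refl => exact absurd hy hu
  | @head u c huc _ ih =>
    by_cases hc : c ∈ B
    · exact ⟨c, hc, huc.2.1, u, hu, huc.2.2, Relation.ReflTransGen.refl⟩
    · obtain ⟨y', hy', hyx, b, hb, h1, h2⟩ := ih hc
      exact ⟨y', hy', hyx, b, hb, h1, Relation.ReflTransGen.head ⟨huc.2.2, hu, hc⟩ h2⟩

/-- Leaving `B` along `T`. -/
theorem leave {T : Finset (V × V)} {B : Finset V} {x u : V} (h : Reach T x u) (hx : x ∈ B)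
    (hu : u ∉ B) : ∃ x' ∈ B, ∃ u', u' ∉ B ∧ (x', u') ∈ T := by
  induction h with
  | refl => exact absurd hx hu
  | @tail c u _ hcu ih =>
    by_cases hc : c ∈ B
    · exact ⟨c, hc, u, hu, hcu⟩
    · exact ih hc

theorem grow [Fintype V] {S T : Finset (V × V)} (hsym : ∀ a b, (a, b) ∈ S → (b, a) ∈ S)
    (hT : ∀ u v, Reach T u v) (hS : ∀ z u v, u ≠ z → v ≠ z → Conn S z u v) :
    ∀ (n : ℕ) (B : Finset V) (F : Finset (V × V)), F ⊆ S → F.card + 2 ≤ B.card →
      (∀ z, ∀ u ∈ B, ∀ v ∈ B, u ≠ z → v ≠ z → Conn (T ∪ F) z u v) →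
      Fintype.card V ≤ B.card + n → ∃ F' ⊆ S, F'.card + 2 ≤ Fintype.card V ∧
        ∀ z u v, u ≠ z → v ≠ z → Conn (T ∪ F') z u v := by
  intro n
  induction n with
  | zero =>
    intro B F hF hc hg hn
    have : B = Finset.univ := Finset.eq_univ_of_card B
      (le_antisymm (Finset.card_le_univ B) (by simpa using hn))
    subst this
    exact ⟨F, hF, by simpa using hc, fun z u v => hg z u (Finset.mem_univ _) v
      (Finset.mem_univ _)⟩
  | succ n ih =>
    intro B F hF hc hg hn
    by_cases hB : B = Finset.univ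
    · exact ih B F hF hc hg (by rw [hB, Finset.card_univ]; omega)
    · obtain ⟨x₀, hx₀⟩ : B.Nonempty := Finset.card_pos.1 (by omega)
      obtain ⟨u₀, hu₀⟩ : ∃ u, u ∉ B := by
        by_contra h
        push Not at h
        exact hB (Finset.eq_univ_iff_forall.2 h)
      obtain ⟨x, hx, a, ha, hxa⟩ := leave (hT x₀ u₀) hx₀ hu₀
      obtain ⟨y₀, hy₀, hyx₀⟩ : ∃ y ∈ B, y ≠ x := by
        have : 1 < B.card := by omega
        exact Finset.exists_mem_ne this x
      have hax : a ≠ x := fun h => ha (h ▸ hx)
      obtain ⟨y, hy, hyx, b, hb, hby, hab⟩ := first_entry (hS x a y₀ hax hyx₀) hy₀ ha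
      have hbyS : (b, y) ∈ S := hby.elim id (hsym _ _)
      obtain ⟨W, P, hp⟩ := Pth.exists_of hab
      have hW := hp.avoid (B := B) (fun _ _ h => h.2.1) hb
      have hPS : P ⊆ S := hp.sub fun p q h => h.1.elim id (hsym _ _)
      have h5 : 1 ≤ W.card := Finset.card_pos.2 ⟨a, hp.left_mem⟩
      have h2 : (B ∪ W).card = B.card + W.card :=
        Finset.card_union_of_disjoint (Finset.disjoint_right.2 hW)
      refine ih (B ∪ W) (F ∪ P ∪ {(b, y)}) ?_ ?_ ?_ ?_
      · intro e he
        simp only [Finset.mem_union, Finset.mem_singleton] at he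
        rcases he with (h | h) | h
        · exact hF h
        · exact hPS h
        · exact h ▸ hbyS
      · have h6 := hp.card
        have h7 := Finset.card_union_le (F ∪ P) {(b, y)}
        have h8 := Finset.card_union_le F P
        rw [Finset.card_singleton] at h7
        omega
      · refine conn_ear hg hx hy hyx.symm hp hW ?_ ?_ ?_ ?_
        · intro e he
          simp only [Finset.mem_union] at he ⊢
          tauto
        · intro e he
          simp only [Finset.mem_union] at he ⊢
          tauto
        · left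
          simp [hxa]
        · left
          simp
      · omega

theorem bi_sparse [Fintype V] (hn : 2 ≤ Fintype.card V) {E T : Finset (V × V)}
    (hT : ∀ u v, Reach T u v) (hE : ∀ z u v, u ≠ z → v ≠ z → Conn E z u v) :
    ∃ F ⊆ E, F.card + 2 ≤ Fintype.card V ∧
      ∀ z u v, u ≠ z → v ≠ z → Conn (T ∪ F) z u v := by
  set S := E ∪ E.image Prod.swap with hSdef
  have hsym : ∀ a b, (a, b) ∈ S → (b, a) ∈ S := by
    intro a b h
    simp only [hSdef, Finset.mem_union, Finset.mem_image, Prod.exists, Prod.swap_prod_mk,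
      Prod.mk.injEq] at h ⊢
    rcases h with h | ⟨c, d, h, rfl, rfl⟩
    · exact Or.inr ⟨a, b, h, rfl, rfl⟩
    · exact Or.inl h
  have hS : ∀ z u v, u ≠ z → v ≠ z → Conn S z u v := fun z u v hu hv =>
    (hE z u v hu hv).mono Finset.subset_union_left
  obtain ⟨x, y, hxy⟩ : ∃ x y : V, x ≠ y := Fintype.exists_pair_of_one_lt_card (by omega)
  obtain ⟨x', hx', u', hu', hxu⟩ := leave (B := {x}) (hT x y) (by simp) (by simpa using hxy.symm)
  rw [Finset.mem_singleton] at hx' hu'
  subst hx'
  have hcard2 : ({x', u'} : Finset V).card = 2 := Finset.card_pair (Ne.symm hu')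
  obtain ⟨F, hF, hc, hg⟩ := grow hsym hT hS (Fintype.card V) {x', u'} ∅ (by simp) (by
    rw [hcard2]; simp) (by
    intro z u hu v hv huz hvz
    have hstep : ∀ p q, p ≠ z → q ≠ z → ((p = x' ∧ q = u') ∨ (p = u' ∧ q = x')) →
        Conn (T ∪ ∅) z p q := by
      intro p q hp hq h
      refine Relation.ReflTransGen.single ⟨hp, hq, ?_⟩
      rcases h with ⟨rfl, rfl⟩ | ⟨rfl, rfl⟩
      · left; simpa using hxu
      · right; simpa using hxu
    simp only [Finset.mem_insert, Finset.mem_singleton] at hu hv
    rcases hu with rfl | rfl <;> rcases hv with rfl | rfl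
    · exact Relation.ReflTransGen.refl
    · exact hstep _ _ huz hvz (Or.inl ⟨rfl, rfl⟩)
    · exact hstep _ _ huz hvz (Or.inr ⟨rfl, rfl⟩)
    · exact Relation.ReflTransGen.refl) (by omega)
  refine ⟨F.image fun e => if e ∈ E then e else e.swap, ?_, ?_, ?_⟩
  · intro e he
    obtain ⟨f, hf, rfl⟩ := Finset.mem_image.1 he
    have := hF hf
    split_ifs with h
    · exact h
    · rw [hSdef, Finset.mem_union] at this
      rcases this with h' | h'
      · exact absurd h' h
      · obtain ⟨g, hg, rfl⟩ := Finset.mem_image.1 h'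
        simpa using hg
  · have := Finset.card_image_le (s := F) (f := fun e => if e ∈ E then e else e.swap)
    omega
  · intro z u v hu hv
    have h := hg z u v hu hv
    induction h with
    | refl => exact Relation.ReflTransGen.refl
    | @tail c d hc hd ih =>
      refine (ih hd.1).tail ⟨hd.1, hd.2.1, ?_⟩
      have hor : ∀ p q, (p, q) ∈ T ∪ F → (p, q) ∈ T ∪ F.image (fun e => if e ∈ E then e else e.swap)
          ∨ (q, p) ∈ T ∪ F.image (fun e => if e ∈ E then e else e.swap) := by
        intro p q hpq
        rcases Finset.mem_union.1 hpq with h | h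
        · exact Or.inl (Finset.mem_union_left _ h)
        · by_cases hE' : (p, q) ∈ E
          · exact Or.inl (Finset.mem_union_right _ (Finset.mem_image.2 ⟨(p, q), h, by simp [hE']⟩))
          · exact Or.inr (Finset.mem_union_right _ (Finset.mem_image.2 ⟨(p, q), h, by simp [hE']⟩))
      rcases hd.2.2 with h | h
      · exact hor _ _ h
      · exact (hor _ _ h).symm

/-! ### Graphs in which every edge is a bridge after the deletion of some vertex -/

/-- Adjacency given by a set of arcs. -/
def adj (F : Finset (V × V)) (p q : V) : Prop := (p, q) ∈ F ∨ (q, p) ∈ F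

theorem chain_conn {F : Finset (V × V)} {z x y : V} {g : V × V}
    (hg : g = (x, y) ∨ g = (y, x)) :
    ∀ l : List V, l.IsChain (adj F) → x ∉ l → z ∉ l → ∀ u ∈ l, ∀ v ∈ l,
      Conn (F.erase g) z u v := by
  intro l
  induction l with
  | nil => intro _ _ _ u hu; simp at hu
  | cons a l ih =>
    intro hch hx hz
    have key : ∀ v ∈ l, Conn (F.erase g) z a v := by
      cases l with
      | nil => intro v hv; simp at hv
      | cons b l =>
        intro v hv
        rw [List.isChain_cons_cons] at hch
        have hx' : x ∉ b :: l := fun h => hx (List.mem_cons_of_mem _ h)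
        have hz' : z ∉ b :: l := fun h => hz (List.mem_cons_of_mem _ h)
        have h1 := ih hch.2 hx' hz' b List.mem_cons_self v hv
        have hxa : x ≠ a := fun h => hx (h ▸ List.mem_cons_self)
        have hxb : x ≠ b := fun h => hx' (h ▸ List.mem_cons_self)
        have hza : a ≠ z := fun h => hz (h ▸ List.mem_cons_self)
        have hzb : b ≠ z := fun h => hz' (h ▸ List.mem_cons_self)
        refine Relation.ReflTransGen.head ⟨hza, hzb, ?_⟩ h1
        rcases hch.1 with h | h
        · left
          refine Finset.mem_erase.2 ⟨?_, h⟩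
          rintro rfl
          rcases hg with h2 | h2
          · exact hxa (Prod.mk.inj h2).1.symm
          · exact hxb (Prod.mk.inj h2).2.symm
        · right
          refine Finset.mem_erase.2 ⟨?_, h⟩
          rintro rfl
          rcases hg with h2 | h2
          · exact hxb (Prod.mk.inj h2).1.symm
          · exact hxa (Prod.mk.inj h2).2.symm
    cases l with
    | nil =>
      intro u hu v hv
      rw [List.mem_singleton] at hu hv
      rw [hu, hv]
    | cons b l =>
      rw [List.isChain_cons_cons] at hch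
      have hx' : x ∉ b :: l := fun h => hx (List.mem_cons_of_mem _ h)
      have hz' : z ∉ b :: l := fun h => hz (List.mem_cons_of_mem _ h)
      have ih' := ih hch.2 hx' hz'
      intro u hu v hv
      rcases List.mem_cons.1 hu with hu1 | hu1
      · rcases List.mem_cons.1 hv with hv1 | hv1
        · rw [hu1, hv1]
        · rw [hu1]
          exact key v hv1
      · rcases List.mem_cons.1 hv with hv1 | hv1
        · rw [hv1]
          exact (key u hu1).symm
        · exact ih' u hu1 v hv1

/-- The hypothesis on the graph: after deleting some vertex the edge `g` is a bridge. -/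
def BridgeAfter (F : Finset (V × V)) : Prop :=
  ∀ g ∈ F, ∃ z, g.1 ≠ z ∧ g.2 ≠ z ∧ ¬ Conn (F.erase g) z g.1 g.2

/-- Three paths contradict the hypothesis. -/
theorem no_theta {F : Finset (V × V)} (hF : BridgeAfter F) {x x₁ y w : V} {s t : List V}
    (hch : (x₁ :: (s ++ y :: t)).IsChain (adj F)) (hnd : (x₁ :: (s ++ y :: t)).Nodup)
    (hx : x ∉ x₁ :: (s ++ y :: t)) (hxx₁ : adj F x x₁) (hxy : adj F x y) (hxw : adj F x w)
    (hw : w ∈ t) : False := by
  -- the arc joining `x` and `y`
  obtain ⟨g, hgF, hg, z, hxz, hyz, hnc⟩ : ∃ g ∈ F, (g = (x, y) ∨ g = (y, x)) ∧ ∃ z, x ≠ z ∧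
      y ≠ z ∧ ¬ Conn (F.erase g) z x y := by
    rcases hxy with h | h
    · obtain ⟨z, h1, h2, h3⟩ := hF _ h
      exact ⟨_, h, Or.inl rfl, z, h1, h2, h3⟩
    · obtain ⟨z, h1, h2, h3⟩ := hF _ h
      exact ⟨_, h, Or.inr rfl, z, h2, h1, fun h => h3 h.symm⟩
  have hstep : ∀ c, adj F x c → c ≠ y → c ≠ z → x ≠ c → Step (F.erase g) z x c := by
    intro c hc hcy hcz hxc
    refine ⟨hxz, hcz, ?_⟩
    rcases hc with h | h
    · left
      refine Finset.mem_erase.2 ⟨?_, h⟩
      rintro rfl
      rcases hg with h2 | h2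
      · exact hcy (Prod.mk.inj h2).2
      · exact hxc (Prod.mk.inj h2).2.symm
    · right
      refine Finset.mem_erase.2 ⟨?_, h⟩
      rintro rfl
      rcases hg with h2 | h2
      · exact hxc (Prod.mk.inj h2).1.symm
      · exact hcy (Prod.mk.inj h2).1
  have hsplit : x₁ :: (s ++ y :: t) = (x₁ :: s ++ [y]) ++ t := by simp
  have hsplit2 : x₁ :: (s ++ y :: t) = (x₁ :: s) ++ (y :: t) := by simp
  have hx1 : x ≠ x₁ := fun h => hx (h ▸ List.mem_cons_self)
  have hw' : w ∈ x₁ :: (s ++ y :: t) := by simp [hw]
  have hxw' : x ≠ w := fun h => hx (h ▸ hw')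
  have hnd2 := hnd
  rw [hsplit2] at hnd2
  have hdisj := (List.nodup_append.1 hnd2).2.2
  have hnd3 := (List.nodup_append.1 hnd2).2.1
  rw [List.nodup_cons] at hnd3
  by_cases hz : z ∈ x₁ :: s
  · -- use the back path
    have hzt : z ∉ y :: t := fun h => hdisj z hz z h rfl
    have hch2 : (y :: t).IsChain (adj F) := by
      rw [hsplit2] at hch
      exact hch.right_of_append
    have hx2 : x ∉ y :: t := fun h => hx (by rw [hsplit2]; exact List.mem_append_right _ h)
    have h1 := chain_conn (F := F) hg (y :: t) hch2 hx2 hzt w (List.mem_cons_of_mem _ hw) y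
      List.mem_cons_self
    have hwy : w ≠ y := fun h => hnd3.1 (h ▸ hw)
    have hwz : w ≠ z := fun h => hzt (h ▸ List.mem_cons_of_mem _ hw)
    exact hnc (Relation.ReflTransGen.head (hstep w hxw hwy hwz hxw') h1)
  · have hzl : z ∉ x₁ :: s ++ [y] := by
      intro h
      rcases List.mem_append.1 h with h | h
      · exact hz h
      · rw [List.mem_singleton] at h
        exact hyz h.symm
    have hch2 : (x₁ :: s ++ [y]).IsChain (adj F) := by
      rw [hsplit] at hch
      exact hch.left_of_append
    have hx2 : x ∉ x₁ :: s ++ [y] := fun h => hx (by rw [hsplit]; exact List.mem_append_left _ h)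
    have h1 := chain_conn (F := F) hg (x₁ :: s ++ [y]) hch2 hx2 hzl x₁ (by simp) y (by simp)
    have h1y : x₁ ≠ y := by
      intro h
      exact hdisj x₁ List.mem_cons_self y List.mem_cons_self h
    have h1z : x₁ ≠ z := fun h => hz (h ▸ List.mem_cons_self)
    exact hnc (Relation.ReflTransGen.head (hstep x₁ hxx₁ h1y h1z hx1) h1)

/-- A vertex of degree at most two. -/
theorem exists_small [Fintype V] {F : Finset (V × V)} (hF : BridgeAfter F)
    (hloop : ∀ v, (v, v) ∉ F) {S : Finset V} (hS : S.Nonempty) :
    ∃ x ∈ S, ∀ y₁ ∈ S, ∀ y₂ ∈ S, ∀ y₃ ∈ S, adj F x y₁ → adj F x y₂ → adj F x y₃ →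
      y₁ = y₂ ∨ y₁ = y₃ ∨ y₂ = y₃ := by
  classical
  -- a longest path in `S`
  obtain ⟨l, ⟨hch, hnd, hlS, hne⟩, hmax⟩ : ∃ l : List V, (l.IsChain (adj F) ∧ l.Nodup ∧
      (∀ v ∈ l, v ∈ S) ∧ l ≠ []) ∧ ∀ l' : List V, (l'.IsChain (adj F) ∧ l'.Nodup ∧
      (∀ v ∈ l', v ∈ S) ∧ l' ≠ []) → l'.length ≤ l.length := by
    obtain ⟨s, hs⟩ := hS
    by_contra hcon
    push Not at hcon
    have : ∀ n : ℕ, ∃ l : List V, (l.IsChain (adj F) ∧ l.Nodup ∧
      (∀ v ∈ l, v ∈ S) ∧ l ≠ []) ∧ n ≤ l.length := by
      intro n
      induction n with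
      | zero => exact ⟨[s], ⟨by simp, by simp, by simpa using hs, by simp⟩, by simp⟩
      | succ n ih =>
        obtain ⟨l, hl, hn⟩ := ih
        obtain ⟨l', hl', hlt⟩ := hcon l hl
        exact ⟨l', hl', by omega⟩
    obtain ⟨l, hl, hn⟩ := this (Fintype.card V + 1)
    have := hl.2.1.length_le_card
    omega
  obtain ⟨x, l', rfl⟩ := List.exists_cons_of_ne_nil hne
  have hxS := hlS x List.mem_cons_self
  have hnb : ∀ y ∈ S, adj F x y → y ∈ l' := by
    intro y hy hxy
    have hyx : y ≠ x := by
      rintro rfl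
      rcases hxy with h | h <;> exact hloop _ h
    by_contra hyl
    have h1 := hmax (y :: x :: l') ⟨by
      rw [List.isChain_cons_cons]
      exact ⟨hxy.symm, hch⟩, by
      rw [List.nodup_cons]
      refine ⟨fun h => ?_, hnd⟩
      rcases List.mem_cons.1 h with h | h
      · exact hyx h
      · exact hyl h, by
      intro v hv
      rcases List.mem_cons.1 hv with rfl | hv
      · exact hy
      · exact hlS v hv, by simp⟩
    simp at h1
  rw [List.nodup_cons] at hnd
  refine ⟨x, hxS, ?_⟩
  intro y₁ h₁ y₂ h₂ y₃ h₃ a₁ a₂ a₃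
  by_contra hcon
  push Not at hcon
  cases l' with
  | nil =>
    have := hnb y₁ h₁ a₁
    simp at this
  | cons x₁ l'' =>
    rw [List.isChain_cons_cons] at hch
    -- two neighbours different from `x₁`
    obtain ⟨y, w, hyw, hyx, hwx, hy, hw, ay, aw⟩ : ∃ y w, y ≠ w ∧ y ≠ x₁ ∧ w ≠ x₁ ∧ y ∈ S ∧
        w ∈ S ∧ adj F x y ∧ adj F x w := by
      by_cases e1 : y₁ = x₁
      · subst e1
        exact ⟨y₂, y₃, hcon.2.2, hcon.1.symm, hcon.2.1.symm, h₂, h₃, a₂, a₃⟩
      · by_cases e2 : y₂ = x₁
        · subst e2
          exact ⟨y₁, y₃, hcon.2.1, hcon.1, hcon.2.2.symm, h₁, h₃, a₁, a₃⟩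
        · exact ⟨y₁, y₂, hcon.1, e1, e2, h₁, h₂, a₁, a₂⟩
    have hyl : y ∈ l'' := by
      rcases List.mem_cons.1 (hnb y hy ay) with h | h
      · exact absurd h hyx
      · exact h
    have hwl : w ∈ l'' := by
      rcases List.mem_cons.1 (hnb w hw aw) with h | h
      · exact absurd h hwx
      · exact h
    obtain ⟨s, t, rfl⟩ := List.append_of_mem hyl
    rcases List.mem_append.1 hwl with hws | hwt
    · obtain ⟨s₁, s₂, rfl⟩ := List.append_of_mem hws
      have e : s₁ ++ w :: s₂ ++ y :: t = s₁ ++ w :: (s₂ ++ y :: t) := by simp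
      rw [e] at hch hnd
      exact no_theta hF hch.2 hnd.2 hnd.1 hch.1 aw ay (by simp)
    · rcases List.mem_cons.1 hwt with h | hwt
      · exact hyw h.symm
      · exact no_theta hF hch.2 hnd.2 hnd.1 hch.1 ay aw hwt

theorem bridge_card [Fintype V] {F : Finset (V × V)} (hF : BridgeAfter F)
    (hloop : ∀ v, (v, v) ∉ F) : ∀ (n : ℕ) (S : Finset V), S.card = n → S.Nonempty →
      (F.filter fun e => e.1 ∈ S ∧ e.2 ∈ S).card + 2 ≤ 2 * S.card := by
  intro n
  induction n with
  | zero =>
    intro S hc hS
    rw [Finset.card_eq_zero] at hc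
    exact absurd hc (Finset.nonempty_iff_ne_empty.1 hS)
  | succ n ih =>
    intro S hc hS
    obtain ⟨x, hx, hsmall⟩ := exists_small hF hloop hS
    by_cases hone : (S.erase x).Nonempty
    · have h1 := ih (S.erase x) (by rw [Finset.card_erase_of_mem hx, hc]; rfl) hone
      rw [Finset.card_erase_of_mem hx] at h1
      -- neighbours of `x` in `S`
      set N := S.filter fun y => (x, y) ∈ F ∨ (y, x) ∈ F with hN
      have hNcard : N.card ≤ 2 := by
        by_contra h
        push Not at h
        obtain ⟨a, b, c, ha, hb, hc', hab, hac, hbc⟩ := Finset.two_lt_card_iff.1 h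
        simp only [hN, Finset.mem_filter] at ha hb hc'
        rcases hsmall a ha.1 b hb.1 c hc'.1 ha.2 hb.2 hc'.2 with h | h | h
        · exact hab h
        · exact hac h
        · exact hbc h
      have hsub : (F.filter fun e => e.1 ∈ S ∧ e.2 ∈ S) ⊆
          (F.filter fun e => e.1 ∈ S.erase x ∧ e.2 ∈ S.erase x) ∪
            N.image fun y => if (x, y) ∈ F then (x, y) else (y, x) := by
        intro e he
        rw [Finset.mem_filter] at he
        obtain ⟨heF, he1, he2⟩ := he
        have hanti : ∀ a b, (a, b) ∈ F → (b, a) ∉ F := by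
          intro a b hab hba
          obtain ⟨z, hz1, hz2, hz3⟩ := hF _ hab
          refine hz3 (Relation.ReflTransGen.single ⟨hz1, hz2, Or.inr ?_⟩)
          refine Finset.mem_erase.2 ⟨?_, hba⟩
          intro h
          rw [Prod.mk.injEq] at h
          exact hloop a (h.1 ▸ hab)
        by_cases ex1 : e.1 = x
        · apply Finset.mem_union_right
          have hxe : (x, e.2) ∈ F := by rw [← ex1]; exact heF
          refine Finset.mem_image.2 ⟨e.2, ?_, ?_⟩
          · simp only [hN, Finset.mem_filter]
            exact ⟨he2, Or.inl hxe⟩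
          · rw [if_pos hxe, ← ex1]
        · by_cases ex2 : e.2 = x
          · apply Finset.mem_union_right
            have hxe : (e.1, x) ∈ F := by rw [← ex2]; exact heF
            refine Finset.mem_image.2 ⟨e.1, ?_, ?_⟩
            · simp only [hN, Finset.mem_filter]
              exact ⟨he1, Or.inr hxe⟩
            · rw [if_neg (hanti _ _ hxe), ← ex2]
          · apply Finset.mem_union_left
            simp only [Finset.mem_filter, Finset.mem_erase]
            exact ⟨heF, ⟨ex1, he1⟩, ex2, he2⟩
      have h2 := Finset.card_le_card hsub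
      have h3 := Finset.card_union_le (F.filter fun e => e.1 ∈ S.erase x ∧ e.2 ∈ S.erase x)
        (N.image fun y => if (x, y) ∈ F then (x, y) else (y, x))
      have h4 := Finset.card_image_le (s := N)
        (f := fun y => if (x, y) ∈ F then (x, y) else (y, x))
      have h5 : 1 ≤ (S.erase x).card := Finset.card_pos.2 hone
      rw [Finset.card_erase_of_mem hx] at h5
      omega
    · rw [Finset.not_nonempty_iff_eq_empty] at hone
      have hSx : S = {x} := by
        rw [← Finset.insert_erase hx, hone]
        rfl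
      have : (F.filter fun e => e.1 ∈ S ∧ e.2 ∈ S) = ∅ := by
        rw [Finset.filter_eq_empty_iff]
        rintro ⟨a, b⟩ he ⟨h1, h2⟩
        rw [hSx, Finset.mem_singleton] at h1 h2
        simp only at h1 h2
        subst h1 h2
        exact hloop _ he
      rw [this, hSx]
      simp

/-! ### Assembly -/

theorem add_sparse [Fintype V] [Nonempty V] {E K : Finset (V × V)} (hloop : ∀ v, (v, v) ∉ E)
    (hKE : K ⊆ E) (hK : ∀ z u v, u ≠ z → v ≠ z → Conn K z u v)
    (hE : ∀ e z u v, u ≠ z → v ≠ z → Conn (E.erase e) z u v) :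
    ∃ F ⊆ E, F.card + 2 ≤ 2 * Fintype.card V ∧
      ∀ e z u v, u ≠ z → v ≠ z → Conn ((K ∪ F).erase e) z u v := by
  classical
  obtain ⟨F, hF, hmin⟩ := Finset.exists_min_image (E.powerset.filter fun F =>
    ∀ e z u v, u ≠ z → v ≠ z → Conn ((K ∪ F).erase e) z u v) Finset.card ⟨E, by
      simp only [Finset.mem_filter, Finset.mem_powerset, Finset.Subset.refl, true_and]
      intro e z u v hu hv
      rw [Finset.union_eq_right.2 hKE]
      exact hE e z u v hu hv⟩
  rw [Finset.mem_filter, Finset.mem_powerset] at hF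
  obtain ⟨hsub, hprop⟩ := hF
  refine ⟨F, hsub, ?_, hprop⟩
  have hB : BridgeAfter F := by
    intro g hg
    have hnot : ¬ ∀ e z u v, u ≠ z → v ≠ z → Conn ((K ∪ F.erase g).erase e) z u v := by
      intro h
      have := hmin (F.erase g) (by
        rw [Finset.mem_filter, Finset.mem_powerset]
        exact ⟨(Finset.erase_subset _ _).trans hsub, h⟩)
      have h2 := Finset.card_erase_lt_of_mem hg
      omega
    push Not at hnot
    obtain ⟨e, z, u, v, hu, hv, hnc⟩ := hnot
    have hfull := hprop e z u v hu hv
    -- if the ends of `g` were connected without `g`, so would `u` and `v`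
    have hrep : Conn ((K ∪ F.erase g).erase e) z g.1 g.2 → False := by
      intro hg'
      apply hnc
      clear hnc
      induction hfull with
      | refl => exact Relation.ReflTransGen.refl
      | @tail c d hc hd ih =>
        refine (ih hd.1).trans ?_
        have hmem : ∀ p, p ∈ (K ∪ F).erase e → p = g ∨ p ∈ (K ∪ F.erase g).erase e := by
          intro p hp
          by_cases hpg : p = g
          · exact Or.inl hpg
          · right
            simp only [Finset.mem_erase, Finset.mem_union] at hp ⊢
            exact ⟨hp.1, hp.2.imp id fun h => ⟨hpg, h⟩⟩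
        rcases hd.2.2 with h | h
        · rcases hmem _ h with h | h
          · have e1 : g.1 = c := by rw [← h]
            have e2 : g.2 = d := by rw [← h]
            rwa [e1, e2] at hg'
          · exact Relation.ReflTransGen.single ⟨hd.1, hd.2.1, Or.inl h⟩
        · rcases hmem _ h with h | h
          · have e1 : g.1 = d := by rw [← h]
            have e2 : g.2 = c := by rw [← h]
            rw [e1, e2] at hg'
            exact hg'.symm
          · exact Relation.ReflTransGen.single ⟨hd.1, hd.2.1, Or.inr h⟩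
    refine ⟨z, ?_, ?_, ?_⟩
    · -- `g.1 = z` would make `g` useless
      intro h1
      apply hnc
      clear hnc hrep
      induction hfull with
      | refl => exact Relation.ReflTransGen.refl
      | @tail c d hc hd ih =>
        refine (ih hd.1).tail ⟨hd.1, hd.2.1, ?_⟩
        have hmem : ∀ p, p.1 ≠ z → p ∈ (K ∪ F).erase e → p ∈ (K ∪ F.erase g).erase e := by
          intro p hpz hp
          have hpg : p ≠ g := fun h => hpz (h ▸ h1)
          simp only [Finset.mem_erase, Finset.mem_union] at hp ⊢
          exact ⟨hp.1, hp.2.imp id fun h => ⟨hpg, h⟩⟩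
        exact hd.2.2.imp (hmem (c, d) hd.1) (hmem (d, c) hd.2.1)
    · intro h1
      apply hnc
      clear hnc hrep
      induction hfull with
      | refl => exact Relation.ReflTransGen.refl
      | @tail c d hc hd ih =>
        refine (ih hd.1).tail ⟨hd.1, hd.2.1, ?_⟩
        have hmem : ∀ p, p.2 ≠ z → p ∈ (K ∪ F).erase e → p ∈ (K ∪ F.erase g).erase e := by
          intro p hpz hp
          have hpg : p ≠ g := fun h => hpz (h ▸ h1)
          simp only [Finset.mem_erase, Finset.mem_union] at hp ⊢
          exact ⟨hp.1, hp.2.imp id fun h => ⟨hpg, h⟩⟩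
        exact hd.2.2.imp (hmem (c, d) hd.2.1) (hmem (d, c) hd.1)
    · intro hcon
      by_cases heK : e ∈ K
      · by_cases heF : e ∈ F.erase g
        · -- then `e ∈ K` may be dropped from `F`
          have hnot2 : ¬ ∀ e z u v, u ≠ z → v ≠ z → Conn ((K ∪ F.erase e).erase e) z u v →
              True → False := by
            intro h
            exact h e z u v hu hv (by
              have : (K ∪ F.erase e).erase e = (K ∪ F).erase e := by
                ext p
                simp only [Finset.mem_erase, Finset.mem_union]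
                tauto
              rw [this]
              exact hfull) trivial
          have h3 : K ∪ F.erase e = K ∪ F := by
            ext p
            simp only [Finset.mem_erase, Finset.mem_union]
            constructor
            · tauto
            · rintro (h | h)
              · exact Or.inl h
              · by_cases hpe : p = e
                · exact Or.inl (hpe ▸ heK)
                · exact Or.inr ⟨hpe, h⟩
          have h4 := hmin (F.erase e) (by
            rw [Finset.mem_filter, Finset.mem_powerset]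
            refine ⟨(Finset.erase_subset _ _).trans hsub, ?_⟩
            rw [h3]
            exact hprop)
          have h5 := Finset.card_erase_lt_of_mem (Finset.mem_of_mem_erase heF)
          omega
        · refine hrep (hcon.mono ?_)
          intro p hp
          refine Finset.mem_erase.2 ⟨fun h => heF (h ▸ hp), Finset.mem_union_right _ hp⟩
      · apply hnc
        refine (hK z u v hu hv).mono ?_
        intro p hp
        refine Finset.mem_erase.2 ⟨fun h => heK (h ▸ hp), Finset.mem_union_left _ hp⟩
  have h1 := bridge_card hB (fun v h => hloop v (hsub h)) _ Finset.univ rfl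
    Finset.univ_nonempty
  rw [Finset.filter_true_of_mem (by simp), Finset.card_univ] at h1
  exact h1

theorem conn_iff {E : Finset (V × V)} :
    (∀ x : V, ((underlying E).induce {x}ᶜ).Preconnected) ↔
      ∀ z u v, u ≠ z → v ≠ z → Conn E z u v := by
  constructor
  · intro h z u v hu hv
    obtain ⟨w⟩ := h z ⟨u, hu⟩ ⟨v, hv⟩
    have : ∀ (a b : ({z}ᶜ : Set V)), ((underlying E).induce {z}ᶜ).Walk a b →
        Conn E z a b := by
      intro a b w
      induction w with
      | nil => exact Relation.ReflTransGen.refl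
      | @cons a c b hac _ ih =>
        refine Relation.ReflTransGen.head ⟨a.2, c.2, ?_⟩ ih
        have h2 : (underlying E).Adj a c := hac
        rw [underlying, SimpleGraph.fromRel_adj] at h2
        exact h2.2
    exact this _ _ w
  · intro h z u v
    have h1 := h z u v u.2 v.2
    have : ∀ (a b : V), Conn E z a b → ∀ (ha : a ∈ ({z}ᶜ : Set V)) (hb : b ∈ ({z}ᶜ : Set V)),
        ((underlying E).induce {z}ᶜ).Reachable ⟨a, ha⟩ ⟨b, hb⟩ := by
      intro a b hab
      induction hab with
      | refl => intro _ _; exact SimpleGraph.Reachable.refl _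
      | @tail c d _ hcd ih =>
        intro ha hd
        have hc : c ∈ ({z}ᶜ : Set V) := hcd.1
        by_cases hcd' : c = d
        · subst hcd'
          exact ih ha hd
        · refine (ih ha hc).trans (SimpleGraph.Adj.reachable ?_)
          show (underlying E).Adj c d
          rw [underlying, SimpleGraph.fromRel_adj]
          exact ⟨hcd', hcd.2.2⟩
    exact this u v h1 u.2 v.2

theorem reach_of_ent [Fintype V] {E : Finset (V × V)}
    (hE : ∀ X : Finset V, X.Nonempty → X ≠ Finset.univ → (ent E X).Nonempty) (u v : V) :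
    Reach E u v := by
  classical
  by_contra h
  obtain ⟨e, he⟩ := hE (Finset.univ.filter fun w => ¬ Reach E u w) ⟨v, by simpa using h⟩ (by
    intro h2
    have : u ∈ Finset.univ.filter fun w => ¬ Reach E u w := by
      rw [h2]
      exact Finset.mem_univ u
    rw [Finset.mem_filter] at this
    exact this.2 Relation.ReflTransGen.refl)
  rw [mem_ent] at he
  simp only [Finset.mem_filter, Finset.mem_univ, true_and, not_not] at he
  exact he.2.2 (he.2.1.tail he.1)

theorem ent_of_reach [Fintype V] {E : Finset (V × V)} (hE : ∀ u v, Reach E u v)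
    (X : Finset V) (hX : X.Nonempty) (hXu : X ≠ Finset.univ) : (ent E X).Nonempty := by
  obtain ⟨v, hv⟩ := hX
  obtain ⟨u, hu⟩ : ∃ u, u ∉ X := by
    by_contra h
    push Not at h
    exact hXu (Finset.eq_univ_iff_forall.2 h)
  have h := hE u v
  induction h with
  | refl => exact absurd hv hu
  | @tail c d _ hcd ih =>
    by_cases hc : c ∈ X
    · exact ih hc
    · exact ⟨(c, d), mem_ent.2 ⟨hcd, hc, hv⟩⟩

theorem sb_of [Fintype V] (hn : 3 ≤ Fintype.card V) {E : Finset (V × V)}
    (h1 : ∀ v, (v, v) ∉ E) (h2 : ∀ u v, Reach E u v)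
    (h3 : ∀ z u v, u ≠ z → v ≠ z → Conn E z u v) : StronglyBiconnected E := by
  refine ⟨h1, h2, ?_, ?_⟩
  · have hne : Nonempty V := Fintype.card_pos_iff.1 (by omega)
    refine SimpleGraph.Connected.mk (fun u v => ?_)
    have h := h2 u v
    induction h with
    | refl => exact SimpleGraph.Reachable.refl _
    | @tail c d _ hcd ih =>
      refine ih.trans ?_
      by_cases hcd' : c = d
      · exact hcd' ▸ SimpleGraph.Reachable.refl _
      · refine SimpleGraph.Adj.reachable ?_
        rw [underlying, SimpleGraph.fromRel_adj]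
        exact ⟨hcd', Or.inl hcd⟩
  · intro x
    obtain ⟨y, hy⟩ : ∃ y : V, y ≠ x := Fintype.exists_ne_of_one_lt_card (by omega) x
    have : Nonempty ({x}ᶜ : Set V) := ⟨⟨y, hy⟩⟩
    exact SimpleGraph.Connected.mk (conn_iff.2 h3 x)

/-- **Positive answer to Q1**, with the bound `7 n - 8`. -/
theorem result {V : Type} [Fintype V] [DecidableEq V] (E : Finset (V × V))
    (hE : MinimalTwoEdgeSB E) : E.card + 8 ≤ 7 * Fintype.card V := by
  obtain ⟨⟨hsb, hn, herase⟩, hmin⟩ := hE
  have hne : Nonempty V := Fintype.card_pos_iff.1 (by omega)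
  have hloop := hsb.1
  have hconnE : ∀ e z u v, u ≠ z → v ≠ z → Conn (E.erase e) z u v := by
    intro e
    by_cases he : e ∈ E
    · exact conn_iff.1 fun x => ((herase e he).2.2.2 x).preconnected
    · rw [Finset.erase_eq_of_notMem he]
      exact conn_iff.1 fun x => (hsb.2.2.2 x).preconnected
  have hentE : ∀ X : Finset V, X.Nonempty → X ≠ Finset.univ → 2 ≤ (ent E X).card := by
    intro X hX hXu
    obtain ⟨e, he⟩ := ent_of_reach hsb.2.1 X hX hXu
    have heE := (mem_ent.1 he).1
    obtain ⟨f, hf⟩ := ent_of_reach (herase e heE).2.1 X hX hXu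
    have hf' := mem_ent.1 hf
    rw [Finset.mem_erase] at hf'
    have : 1 < (ent E X).card := Finset.one_lt_card.2
      ⟨e, he, f, mem_ent.2 ⟨hf'.1.2, hf'.2⟩, fun h => hf'.1.1 h.symm⟩
    omega
  obtain ⟨H₁, h1E, h1ent, h1c⟩ := arc_sparse hentE
  have h1reach : ∀ u v, Reach H₁ u v := reach_of_ent fun X hX hXu =>
    Finset.card_pos.1 (lt_of_lt_of_le (by norm_num) (h1ent X hX hXu))
  have hE0 : ∀ z u v, u ≠ z → v ≠ z → Conn E z u v := fun z u v hu hv =>
    (hconnE (u, u) z u v hu hv).mono (Finset.erase_subset _ _)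
  obtain ⟨F₁, h2E, h2c, h2conn⟩ := bi_sparse (by omega) h1reach hE0
  obtain ⟨F₂, h3E, h3c, h3conn⟩ := add_sparse hloop (Finset.union_subset h1E h2E) h2conn hconnE
  set H := H₁ ∪ F₁ ∪ F₂ with hH
  have hHE : H ⊆ E := Finset.union_subset (Finset.union_subset h1E h2E) h3E
  -- `H` and all supersets inside `E` are 2-edge-strongly biconnected
  have hgood : ∀ G : Finset (V × V), H ⊆ G → G ⊆ E → TwoEdgeSB G := by
    intro G hHG hGE
    have hsubH : H₁ ⊆ G := fun e he => hHG (by simp [hH, he])
    have key : ∀ e, StronglyBiconnected (G.erase e) := by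
      intro e
      refine sb_of hn (fun v h => hloop v (hGE (Finset.mem_of_mem_erase h))) ?_ ?_
      · apply reach_of_ent
        intro X hX hXu
        have h5 := h1ent X hX hXu
        have h6 : (ent H₁ X).erase e ⊆ ent (G.erase e) X := by
          intro f hf
          rw [Finset.mem_erase, mem_ent] at hf
          exact mem_ent.2 ⟨Finset.mem_erase.2 ⟨hf.1, hsubH hf.2.1⟩, hf.2.2⟩
        have h7 := Finset.card_le_card h6
        have h8 := Finset.pred_card_le_card_erase (s := ent H₁ X) (a := e)
        exact Finset.card_pos.1 (by omega)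
      · intro z u v hu hv
        exact (h3conn e z u v hu hv).mono (Finset.erase_subset_erase _ hHG)
    refine ⟨?_, hn, fun e _ => key e⟩
    have h9 := key (Classical.arbitrary V, Classical.arbitrary V)
    rwa [Finset.erase_eq_of_notMem (fun h => hloop _ (hGE h))] at h9
  have hEH : E ⊆ H := by
    intro e he
    by_contra heH
    refine hmin e he (hgood _ ?_ (Finset.erase_subset _ _))
    intro f hf
    exact Finset.mem_erase.2 ⟨fun h => heH (h ▸ hf), hHE hf⟩
  have h10 := Finset.card_le_card hEH
  have h11 : H.card ≤ (H₁ ∪ F₁).card + F₂.card := Finset.card_union_le (H₁ ∪ F₁) F₂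
  have h12 := Finset.card_union_le H₁ F₁
  omega

end Pool.Agent.Results.MP_93593e_co.SevenN
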